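import Mathlib
import Pool.Agent.H33.NonPoor

set_option autoImplicit false

namespace Pool.Agent.Results.MP_78c350_an.Neither

/-- There is a free filter on `ℕ` that is neither poor nor conglomerated. -/
theorem result :
    ∃ F : Filter ℕ, ∅ ∉ F ∧ (∀ A : Set ℕ, A.Finite → Aᶜ ∈ F) ∧
      (∃ (Γ : Type) (A : Γ → Set ℕ), Uncountable Γ ∧ Function.Injective A ∧ (∀ γ, (A γ)ᶜ ∉ F) ∧
        ∀ γ δ, γ ≠ δ → (A γ ∩ A δ)ᶜ ∈ F) ∧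
      ¬ ∃ D : ℕ → Set ℕ, (∀ m n, m ≠ n → Disjoint (D m) (D n)) ∧ (∀ n, (D n)ᶜ ∈ F) ∧
        ∀ M : Set ℕ, M.Infinite → (⋃ n ∈ M, D n)ᶜ ∉ F := by
  obtain ⟨F, h1, h2, ⟨A, h3, h4⟩, h5⟩ := Pool.Agent.H33.NonPoor.main
  refine ⟨F, h1, fun A hA => h2 hA.compl_mem_cofinite, ⟨_, A, inferInstance, fun γ δ h => ?_, h3, h4⟩,
    fun ⟨D, a, b, c⟩ => ?_⟩
  · by_contra hne
    exact h3 δ (by simpa [h] using h4 γ δ hne)
  · obtain ⟨M, d, e⟩ := h5 D a b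
    exact c M d e

end Pool.Agent.Results.MP_78c350_an.Neither
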